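import Mathlib
import Pool.Agent.W150.SM.LowEng

/-! # Shanks' function of a set of natural numbers (helper146)

`runEnd S g` is the first element of `S` which follows a run of at least `g` consecutive natural
numbers outside `S` (a run between two elements of `S`). -/

set_option autoImplicit false

namespace Pool.Agent.W146.SH

open Finset Filter Topology
open Pool.Agent.H318R2.Cr Pool.Agent.W150.SM

/-- the elements `q'` of `S` such that, for some `q ∈ S`, the numbers strictly between `q` and `q'` are at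
least `g` in number and all lie outside `S` -/
def runs (S : Set ℕ) (g : ℕ) : Set ℕ :=
  {q' | q' ∈ S ∧ ∃ q ∈ S, q + g < q' ∧ ∀ n : ℕ, q < n → n < q' → n ∉ S}

/-- Shanks' function: the first element of `S` which follows a run of at least `g` consecutive
non-elements of `S` -/
noncomputable def runEnd (S : Set ℕ) (g : ℕ) : ℕ := sInf (runs S g)

theorem runEnd_le {S : Set ℕ} {g a H B : ℕ} (hgH : g ≤ H) (hemp : ∀ n ∈ Ioc a (a + H), n ∉ S)
    (h1 : ∃ q ∈ S, q ≤ a) (h2 : ∃ s ∈ S, a < s ∧ s ≤ B) :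
    runEnd S g ∈ runs S g ∧ runEnd S g ≤ B := by
  classical
  obtain ⟨q0, hq0, hq0a⟩ := h1
  obtain ⟨s, hs, has, hsB⟩ := h2
  set q := Nat.findGreatest (fun n => n ∈ S) a with hq
  have hqS : q ∈ S := Nat.findGreatest_spec (P := fun n => n ∈ S) hq0a hq0
  have hqa : q ≤ a := Nat.findGreatest_le a
  have hex : ∃ n, n ∈ S ∧ a < n := ⟨s, hs, has⟩
  set q' := Nat.find hex with hq'
  have hq'S := (Nat.find_spec hex).1
  have hq'a := (Nat.find_spec hex).2
  rw [← hq'] at hq'S hq'a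
  have hq's : q' ≤ s := Nat.find_min' hex ⟨hs, has⟩
  have hlong : a + H < q' := by
    by_contra hcon
    exact hemp q' (mem_Ioc.2 ⟨hq'a, by omega⟩) hq'S
  have hmem : q' ∈ runs S g := by
    refine ⟨hq'S, q, hqS, by omega, fun n hn1 hn2 hnS => ?_⟩
    by_cases hna : n ≤ a
    · have := Nat.le_findGreatest (P := fun n => n ∈ S) hna hnS
      omega
    · have := Nat.find_min' hex (m := n) ⟨hnS, by omega⟩
      omega
  exact ⟨Nat.sInf_mem ⟨q', hmem⟩, (Nat.sInf_le hmem).trans (hq's.trans hsB)⟩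

theorem upper_det {S : Set ℕ} {lam : ℝ} (hlam : 0 < lam)
    (h1 : ∀ᶠ k : ℕ in atTop, ∃ a : ℕ, 2 ^ k ≤ a ∧ a + HH lam k < 2 ^ (k + 1) ∧
      ∀ n ∈ Ioc a (a + HH lam k), n ∉ S)
    (h2 : ∀ᶠ k : ℕ in atTop, ∃ n : ℕ, 2 ^ k < n ∧ n < 2 ^ (k + 1) ∧ n ∈ S) :
    ∀ᶠ g : ℕ in atTop, runEnd S g ∈ runs S g ∧
      Real.log (runEnd S g) ≤ √(g : ℝ) / √lam + 2 * Real.log 2 := by
  have hl2 : 0 < Real.log 2 := Real.log_pos (by norm_num)
  obtain ⟨k₀, hk₀⟩ := eventually_atTop.1 (h1.and h2)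
  have ht : Tendsto (fun g : ℕ => ⌊√(g : ℝ) / √lam / Real.log 2⌋₊) atTop atTop := by
    refine tendsto_nat_floor_atTop.comp ?_
    apply Tendsto.atTop_div_const hl2
    apply Tendsto.atTop_div_const (by positivity)
    exact Real.tendsto_sqrt_atTop.comp tendsto_natCast_atTop_atTop
  filter_upwards [ht.eventually_ge_atTop (k₀ + 1)] with g hg
  set k := ⌊√(g : ℝ) / √lam / Real.log 2⌋₊ with hk
  have hs0 : 0 ≤ √(g : ℝ) / √lam / Real.log 2 := by positivity
  have hk1 : (k : ℝ) ≤ √(g : ℝ) / √lam / Real.log 2 := Nat.floor_le hs0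
  have hk2 : √(g : ℝ) / √lam / Real.log 2 < k + 1 := Nat.lt_floor_add_one _
  have hk1' : (k : ℝ) * Real.log 2 ≤ √(g : ℝ) / √lam := by rwa [le_div_iff₀ hl2] at hk1
  have hk2' : √(g : ℝ) / √lam < ((k : ℝ) + 1) * Real.log 2 := by rwa [div_lt_iff₀ hl2] at hk2
  have hgH : g ≤ HH lam k := by
    have e : (g : ℝ) ≤ lam * (((k : ℝ) + 1) * Real.log 2) ^ 2 := by
      have h3 : (√(g : ℝ) / √lam) ^ 2 ≤ (((k : ℝ) + 1) * Real.log 2) ^ 2 :=
        pow_le_pow_left₀ (by positivity) hk2'.le 2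
      rw [div_pow, Real.sq_sqrt (Nat.cast_nonneg g), Real.sq_sqrt hlam.le, div_le_iff₀ hlam] at h3
      linarith
    have : (g : ℝ) ≤ HH lam k := e.trans (Nat.le_ceil _)
    exact_mod_cast this
  obtain ⟨a, ha1, ha2, ha3⟩ := (hk₀ k (by omega)).1
  obtain ⟨n1, hn1, hn2, hn3⟩ := (hk₀ (k - 1) (by omega)).2
  obtain ⟨n2, hm1, hm2, hm3⟩ := (hk₀ (k + 1) (by omega)).2
  rw [Nat.sub_add_cancel (by omega)] at hn2
  obtain ⟨r1, r2⟩ := runEnd_le (B := 2 ^ (k + 2)) hgH ha3 ⟨n1, hn3, by omega⟩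
    ⟨n2, hm3, by omega, hm2.le⟩
  refine ⟨r1, ?_⟩
  have hpos : 0 < runEnd S g := by
    obtain ⟨-, q, -, h3, -⟩ := r1
    omega
  have h4 := logn_le (k := k + 2) hpos r2
  push_cast at h4
  linarith

theorem lower_det {S : Set ℕ} (hS : S.Infinite) {C C' : ℝ} (hCC : C < C')
    (h : cramerLimsup S ≤ (C : EReal)) (hne : ∀ᶠ g : ℕ in atTop, runEnd S g ∈ runs S g) :
    ∀ᶠ g : ℕ in atTop, √(g : ℝ) ≤ √C' * Real.log (runEnd S g) := by
  classical
  have hinf : (Set.ofPred (fun n : ℕ => n ∈ S)).Infinite := hS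
  have h1 : ∀ᶠ k : ℕ in atTop, ((((Nat.nth (· ∈ S) (k + 1) : ℝ) - Nat.nth (· ∈ S) k) /
      Real.log (Nat.nth (· ∈ S) k) ^ 2 : ℝ) : EReal) < (C' : EReal) := by
    apply Filter.eventually_lt_of_limsup_lt
    · exact lt_of_le_of_lt h (EReal.coe_lt_coe_iff.2 hCC)
    · isBoundedDefault
  obtain ⟨i₀, hi₀⟩ := eventually_atTop.1 h1
  filter_upwards [hne, eventually_ge_atTop (Nat.nth (· ∈ S) (i₀ + 2))] with g hg hgi
  obtain ⟨hq'S, q, hqS, hqg, hbet⟩ := hg
  set q' := runEnd S g with hq'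
  set i := Nat.count (· ∈ S) q with hi
  have hqi : Nat.nth (· ∈ S) i = q := Nat.nth_count hqS
  have hqi' : Nat.nth (· ∈ S) (i + 1) = q' := by
    have h3 : Nat.count (· ∈ S) q' = i + 1 := by
      have h4 : Nat.count (· ∈ S) (q + 1) = i + 1 := by
        rw [Nat.count_succ, if_pos hqS]
      rw [← h4]
      obtain ⟨d, hd⟩ := Nat.exists_eq_add_of_le (show q + 1 ≤ q' by omega)
      rw [hd, Nat.count_add]
      have h5 : Nat.count (fun k => (q + 1 + k) ∈ S) d = 0 := by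
        rw [Nat.count_eq_card_filter_range, card_eq_zero, filter_eq_empty_iff]
        intro j hj
        rw [mem_range] at hj
        exact hbet _ (by omega) (by omega)
      rw [h5, add_zero]
    rw [← h3]
    exact Nat.nth_count hq'S
  have hii : i₀ + 2 ≤ i := by
    by_contra hcon
    have h3 : Nat.nth (· ∈ S) (i + 1) ≤ Nat.nth (· ∈ S) (i₀ + 2) :=
      (Nat.nth_strictMono hinf).monotone (by omega)
    rw [hqi'] at h3
    omega
  have h5 := hi₀ i (by omega)
  rw [hqi, hqi', EReal.coe_lt_coe_iff] at h5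
  have hq2 : 2 ≤ q := by
    have := (Nat.nth_strictMono hinf).le_apply (x := i)
    have h6 : i ≤ q := by
      have h7 : i ≤ Nat.nth (· ∈ S) i := this
      rwa [hqi] at h7
    omega
  have hlq : 0 < Real.log q := Real.log_pos (by exact_mod_cast (by omega : 1 < q))
  rw [div_lt_iff₀ (by positivity)] at h5
  have hlq' : Real.log q ≤ Real.log q' :=
    Real.log_le_log (by exact_mod_cast (by omega : 0 < q)) (by exact_mod_cast (by omega : q ≤ q'))
  have hC' : 0 < C' := by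
    by_contra hcon
    push Not at hcon
    have h6 : (0 : ℝ) < (q' : ℝ) - q := by
      have : (q : ℝ) < q' := by exact_mod_cast (by omega : q < q')
      linarith
    have h7 : C' * Real.log q ^ 2 ≤ 0 := mul_nonpos_of_nonpos_of_nonneg hcon (by positivity)
    linarith
  have hg1 : (g : ℝ) ≤ (q' : ℝ) - q := by
    have : (q : ℝ) + g < q' := by exact_mod_cast hqg
    linarith
  have hg2 : (g : ℝ) ≤ C' * Real.log q' ^ 2 := by
    calc (g : ℝ) ≤ C' * Real.log q ^ 2 := by linarith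
      _ ≤ C' * Real.log q' ^ 2 := by gcongr
  calc √(g : ℝ) ≤ √(C' * Real.log q' ^ 2) := Real.sqrt_le_sqrt hg2
    _ = √C' * Real.log q' := by
        rw [Real.sqrt_mul hC'.le, Real.sqrt_sq (by linarith)]

theorem cramer_le {S : Set ℕ} (hS : S.Infinite) {β C' : ℝ} (hβ : 0 < β) (hC : 1 / β ^ 2 < C')
    (h : ∀ᶠ g : ℕ in atTop, β * √(g : ℝ) ≤ Real.log (runEnd S g)) :
    cramerLimsup S ≤ (C' : EReal) := by
  classical
  have hinf : (Set.ofPred (fun n : ℕ => n ∈ S)).Infinite := hS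
  unfold cramerLimsup
  obtain ⟨g₀, hg₀⟩ := eventually_atTop.1 h
  have hC0 : 0 < C' := lt_trans (by positivity) hC
  have hl2 : 0 < Real.log 2 := Real.log_pos (by norm_num)
  -- growth facts for a real variable
  have tl : Tendsto (fun x : ℝ => Real.log x) atTop atTop := Real.tendsto_log_atTop
  have e1 : ∀ᶠ x : ℝ in atTop, (g₀ : ℝ) + 1 ≤ C' * Real.log x ^ 2 := by
    have : Tendsto (fun x : ℝ => C' * Real.log x ^ 2) atTop atTop :=
      (((tendsto_pow_atTop (by norm_num : (2 : ℕ) ≠ 0)).comp tl)).const_mul_atTop hC0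
    exact this.eventually_ge_atTop _
  have e2 : ∀ᶠ x : ℝ in atTop, Real.log (x) ^ 2 / β ^ 2 + 1 ≤ x / 2 := by
    have h3 : Tendsto (fun x : ℝ => Real.log x ^ 2 / x) atTop (𝓝 0) := by
      have := Real.isLittleO_pow_log_id_atTop (n := 2)
      exact this.tendsto_div_nhds_zero
    have h4 : Tendsto (fun x : ℝ => Real.log x ^ 2 / x * (1 / β ^ 2) + 1 / x) atTop (𝓝 (0 * (1 / β ^ 2) + 0)) :=
      (h3.mul_const _).add (tendsto_const_nhds.div_atTop tendsto_id)
    rw [zero_mul, add_zero] at h4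
    filter_upwards [h4.eventually (ge_mem_nhds (show (0 : ℝ) < 1 / 2 by norm_num)), eventually_gt_atTop 0] with x hx hx0
    have h5 : (Real.log x ^ 2 / x * (1 / β ^ 2) + 1 / x) * x ≤ 1 / 2 * x := by gcongr
    have h6 : (Real.log x ^ 2 / x * (1 / β ^ 2) + 1 / x) * x = Real.log x ^ 2 / β ^ 2 + 1 := by
      field_simp
    linarith
  have e3 : ∀ᶠ x : ℝ in atTop, (Real.log x + Real.log 2) ^ 2 / β ^ 2 + 1 ≤ C' * Real.log x ^ 2 := by
    have h3 : Tendsto (fun x : ℝ => (1 + Real.log 2 * (Real.log x)⁻¹) ^ 2 * (1 / β ^ 2) + ((Real.log x)⁻¹) ^ 2)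
        atTop (𝓝 ((1 + Real.log 2 * 0) ^ 2 * (1 / β ^ 2) + 0 ^ 2)) := by
      have h0 : Tendsto (fun x : ℝ => (Real.log x)⁻¹) atTop (𝓝 0) := tendsto_inv_atTop_zero.comp tl
      exact (((tendsto_const_nhds.add (h0.const_mul _)).pow 2).mul_const _).add (h0.pow 2)
    have e4 : (1 + Real.log 2 * 0) ^ 2 * (1 / β ^ 2) + 0 ^ 2 = 1 / β ^ 2 := by ring
    rw [e4] at h3
    filter_upwards [h3.eventually (ge_mem_nhds hC), tl.eventually_gt_atTop 0] with x hx hx0
    have h5 : ((1 + Real.log 2 * (Real.log x)⁻¹) ^ 2 * (1 / β ^ 2) + ((Real.log x)⁻¹) ^ 2) * Real.log x ^ 2 ≤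
        C' * Real.log x ^ 2 := by gcongr
    have h6 : ((1 + Real.log 2 * (Real.log x)⁻¹) ^ 2 * (1 / β ^ 2) + ((Real.log x)⁻¹) ^ 2) * Real.log x ^ 2 =
        (Real.log x + Real.log 2) ^ 2 / β ^ 2 + 1 := by
      field_simp
    linarith
  obtain ⟨X, hX⟩ := eventually_atTop.1 ((e1.and e2).and e3)
  apply Filter.limsup_le_of_le
  · exact Filter.isCobounded_le_of_bot
  · refine eventually_atTop.2 ⟨⌈X⌉₊ + 2, fun i hi => ?_⟩
    have h10 : i ≤ Nat.nth (· ∈ S) i := (Nat.nth_strictMono hinf).le_apply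
    have hlt : Nat.nth (· ∈ S) i < Nat.nth (· ∈ S) (i + 1) := Nat.nth_strictMono hinf (Nat.lt_succ_self i)
    set q := Nat.nth (· ∈ S) i with hq
    set q' := Nat.nth (· ∈ S) (i + 1) with hq'
    have hqX : X ≤ q := (Nat.le_ceil X).trans (by exact_mod_cast (by omega : ⌈X⌉₊ ≤ q))
    have hq'X : X ≤ q' := hqX.trans (by exact_mod_cast hlt.le)
    have hq0 : (0 : ℝ) < q := by exact_mod_cast (by omega : 0 < q)
    have hlq : 0 < Real.log q := Real.log_pos (by exact_mod_cast (by omega : 1 < q))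
    obtain ⟨⟨f1, -⟩, f3⟩ := hX q hqX
    obtain ⟨⟨-, f2⟩, -⟩ := hX q' hq'X
    rw [EReal.coe_le_coe_iff, div_le_iff₀ (by positivity)]
    obtain ⟨g, hg⟩ : ∃ g, q' = q + g + 1 := ⟨q' - q - 1, by omega⟩
    have hcast : (q' : ℝ) - q = g + 1 := by
      rw [hg]
      push_cast
      ring
    rw [hcast]
    rcases lt_or_ge g g₀ with hgg | hgg
    · have : (g : ℝ) ≤ g₀ := by exact_mod_cast hgg.le
      linarith
    · have hmem : q' ∈ runs S g := by
        refine ⟨Nat.nth_mem_of_infinite hinf _, q, Nat.nth_mem_of_infinite hinf _, by omega, fun n h1 h2 h3 => ?_⟩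
        have := Nat.le_nth_of_lt_nth_succ (p := fun n => n ∈ S) (k := i) (a := n) h2 h3
        omega
      have hle : runEnd S g ≤ q' := Nat.sInf_le hmem
      have hpos : 0 < runEnd S g := by
        obtain ⟨-, r, -, h3, -⟩ := Nat.sInf_mem ⟨q', hmem⟩
        have : r + g < runEnd S g := h3
        omega
      have h11 : β * √(g : ℝ) ≤ Real.log q' :=
        (hg₀ g hgg).trans (Real.log_le_log (by exact_mod_cast hpos) (by exact_mod_cast hle))
      have h12 : (g : ℝ) ≤ Real.log q' ^ 2 / β ^ 2 := by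
        rw [le_div_iff₀ (by positivity)]
        have h13 : (β * √(g : ℝ)) ^ 2 ≤ Real.log q' ^ 2 := pow_le_pow_left₀ (by positivity) h11 2
        rw [mul_pow, Real.sq_sqrt (Nat.cast_nonneg g)] at h13
        linarith
      have h14 : (q' : ℝ) ≤ 2 * q := by
        have : (q' : ℝ) - q ≤ q' / 2 := by linarith
        linarith
      have h15 : Real.log q' ≤ Real.log q + Real.log 2 := by
        rw [← Real.log_mul (by positivity) (by norm_num)]
        apply Real.log_le_log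
        · exact lt_of_lt_of_le hq0 (by exact_mod_cast hlt.le)
        · linarith
      have hlq' : 0 ≤ Real.log q' := Real.log_natCast_nonneg _
      have h16 : Real.log q' ^ 2 / β ^ 2 ≤ (Real.log q + Real.log 2) ^ 2 / β ^ 2 := by gcongr
      linarith

end Pool.Agent.W146.SH
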