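import Mathlib
import Pool.Agent.W150.SM.Up2
import Pool.Agent.W150.SM.Low3
import Pool.Agent.W150.SM.Gam

/-! # Sieved random models: pointwise forms of the lower bound machine of helper150 (helper146) -/

set_option autoImplicit false

namespace Pool.Agent.W146.SH

open Finset MeasureTheory ProbabilityTheory Filter Topology
open Pool.Agent.H318R2.Cr Pool.Agent.W150.SM

/-- pointwise form: one interval with few candidates (for a lower level `w`) gives many for the level
`z k` (adapted from helper150's `good_of`) -/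
theorem good_ev1 {z : ℕ → ℕ} (hz : Tendsto (fun k : ℕ => Real.log (z k) / k) atTop (𝓝 0)) {lam κ₀ κ : ℝ}
    (hlam : 0 < lam) (hκ₀ : 0 < κ₀) (hκ : κ₀ < κ) :
    ∀ η : ℝ, 0 < η → η ≤ 1 → ∀ᶠ k : ℕ in atTop, (∃ w a₀ : ℕ, w ≤ z k ∧ (w : ℝ) ≤ η / 8 * k ∧
      (a₀ : ℝ) ≤ (2 : ℝ) ^ (η / 8 * k) ∧ (cnt w a₀ (HH lam k) : ℝ) ≤ κ₀ * (HH lam k * V w)) →
      Good z lam κ η k := by
  classical
  intro η hη hη1
  have hκ0 : 0 < κ := hκ₀.trans hκ
  obtain ⟨ε, hε0, hε⟩ : ∃ ε : ℝ, 0 < ε ∧ κ₀ * (1 + 2 * ε) < κ := by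
    refine ⟨(κ - κ₀) / (4 * κ₀), by have : 0 < κ - κ₀ := by linarith
                                    positivity, ?_⟩
    have : κ₀ * (1 + 2 * ((κ - κ₀) / (4 * κ₀))) = κ₀ + (κ - κ₀) / 2 := by
      field_simp
      ring
    rw [this]
    linarith
  obtain ⟨K, x0, hK, hFL⟩ := FL ε hε0
  set c := 1 - κ₀ * (1 + 2 * ε) / κ with hc
  have hc0 : 0 < c := by
    rw [hc, sub_pos, div_lt_one hκ0]
    exact hε
  have hev := ev_good hz lam ε η c hlam hε0 hη hη1 hc0 K x0
  refine hev.mono fun k hk hG => ?_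
  obtain ⟨hk1, hN1, hs1, hs2, hs3⟩ := hk
  obtain ⟨w, a₀, hw1, hw2, ha₀, hcnt⟩ := hG
  have hk0 : (0 : ℝ) < k := by exact_mod_cast hk1
  set H := HH lam k with hH
  have hH0 : 0 < H := HH_pos lam hlam k
  have hHr : (0 : ℝ) < H := by exact_mod_cast hH0
  have hHle : (H : ℝ) ≤ (lam + 1) * ((k : ℝ) + 1) ^ 2 := HH_le lam hlam k
  set P := ∏ p ∈ Pz w, p with hP
  have hP0 : 0 < P := prod_pos fun p hp => (mem_Pz.1 hp).1.pos
  have hPr : (0 : ℝ) < P := by exact_mod_cast hP0
  have hPle : (P : ℝ) ≤ (2 : ℝ) ^ (η / 4 * k) := by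
    calc (P : ℝ) ≤ ((4 ^ w : ℕ) : ℝ) := by exact_mod_cast prod_Pz_le w
      _ = (2 : ℝ) ^ (2 * (w : ℝ)) := by
          push_cast
          rw [Real.rpow_mul (by norm_num), Real.rpow_natCast]
          norm_num
      _ ≤ _ := Real.rpow_le_rpow_of_exponent_le (by norm_num) (by linarith)
  have hPd : ∀ p : ℕ, p.Prime → p ≤ w → p ∣ P := fun p hp hpw => dvd_prod_of_mem _ (mem_Pz.2 ⟨hp, hpw⟩)
  have hPn : ∀ p : ℕ, p.Prime → w < p → p ≤ z k → ¬ p ∣ P := by
    intro p hp h1 _ hd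
    rw [hP, Prime.dvd_finsetProd_iff hp.prime] at hd
    obtain ⟨q, hq, hpq⟩ := hd
    have h2 := (Nat.prime_dvd_prime_iff_eq hp (mem_Pz.1 hq).1).1 hpq
    have := (mem_Pz.1 hq).2
    omega
  have ha₀' : (a₀ : ℝ) ≤ (2 : ℝ) ^ (η / 4 * k) :=
    ha₀.trans (Real.rpow_le_rpow_of_exponent_le (by norm_num) (by nlinarith))
  have hpow : (2 : ℝ) ^ ((k : ℝ) - 1) = ((2 ^ (k - 1) : ℕ) : ℝ) := by
    push_cast
    rw [← Real.rpow_natCast, Nat.cast_sub hk1]
    push_cast
    rfl
  have h2k : 2 ^ k = 2 * 2 ^ (k - 1) := by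
    rw [← pow_succ']
    congr 1
    omega
  have h2k1 : 2 ^ (k + 1) = 2 * 2 ^ k := by rw [pow_succ']
  have hsmall : a₀ + P + H < 2 ^ (k - 1) := by
    have : ((a₀ + P + H : ℕ) : ℝ) < ((2 ^ (k - 1) : ℕ) : ℝ) := by
      rw [← hpow]
      push_cast
      linarith
    exact_mod_cast this
  set m := 2 ^ k / P + 1 with hm
  set N := 2 ^ (k - 1) / P with hN
  have hm1 : 2 ^ k ≤ P * m := by
    rw [hm, mul_add, mul_one]
    have := Nat.div_add_mod (2 ^ k) P
    have := Nat.mod_lt (2 ^ k) hP0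
    omega
  have hm2 : P * m ≤ 2 ^ k + P := by
    rw [hm, mul_add, mul_one]
    have := Nat.mul_div_le (2 ^ k) P
    omega
  have hNP : P * N ≤ 2 ^ (k - 1) := Nat.mul_div_le _ _
  have hNlow : (2 : ℝ) ^ ((k : ℝ) - 1 - η / 4 * k) - 1 ≤ N := by
    have h1 : (2 ^ (k - 1) : ℕ) < P * (N + 1) := Nat.lt_mul_div_succ _ hP0
    have h2 : ((2 ^ (k - 1) : ℕ) : ℝ) ≤ P * (N + 1) := by exact_mod_cast h1.le
    rw [← hpow] at h2
    have h3 : (2 : ℝ) ^ ((k : ℝ) - 1 - η / 4 * k) * (2 : ℝ) ^ (η / 4 * k) = (2 : ℝ) ^ ((k : ℝ) - 1) := by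
      rw [← Real.rpow_add (by norm_num)]
      congr 1
      ring
    have h4 : (P : ℝ) * (N + 1) ≤ (2 : ℝ) ^ (η / 4 * k) * (N + 1) := by gcongr
    have h5 : (2 : ℝ) ^ ((k : ℝ) - 1 - η / 4 * k) * (2 : ℝ) ^ (η / 4 * k) ≤
        (N + 1) * (2 : ℝ) ^ (η / 4 * k) := by rw [h3]; linarith
    have h6 := le_of_mul_le_mul_right h5 (by positivity)
    linarith
  obtain ⟨hyK, hsq⟩ := hN1 N (hs2.trans hNlow)
  have hN0 : (0 : ℝ) < N := lt_of_lt_of_le (by positivity) (hs2.trans hNlow)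
  set A := a₀ + P * m with hA
  have hVz := V_pos (z k)
  have hVw := V_pos w
  have hVw1 := V_le_one w
  -- the sum
  have hsum : ∑ j ∈ Icc 1 N, (cnt (z k) (A + P * j) H : ℝ) ≤ κ₀ * (1 + 2 * ε) * (H * V (z k) * N) := by
    have h1 := sum_cnt_le hw1 A P N H hPd ((1 + 2 * ε) * (N * (V (z k) / V w))) (by
      intro a
      have h2 := hFL N (max (z k) x0) (le_max_right _ _) hyK w (z k) hw1 (le_max_left _ _) a P hPn N
      have h3 := (abs_le.1 h2).2
      have h4 : ε * (N * V (z k)) ≤ ε * (N * (V (z k) / V w)) := by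
        have h5 : V (z k) ≤ V (z k) / V w := by
          rw [le_div_iff₀ hVw]
          nlinarith
        gcongr
      linarith)
    have e : cnt w A H = cnt w a₀ H := by
      rw [cnt_eq, cnt_eq]
      congr 1
      ext i
      rw [mem_filter, mem_filter, hA, show a₀ + P * m + i = a₀ + i + P * m by ring,
        Rgh_add (fun p hp hpw => (hPd p hp hpw).mul_right m)]
    rw [e] at h1
    refine h1.trans ?_
    calc (cnt w a₀ H : ℝ) * ((1 + 2 * ε) * (N * (V (z k) / V w)))
        ≤ κ₀ * (H * V w) * ((1 + 2 * ε) * (N * (V (z k) / V w))) := by gcongr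
      _ = κ₀ * (1 + 2 * ε) * (H * V (z k) * N) := by
          field_simp
  -- Markov
  set G := (Icc 1 N).filter (fun j => (cnt (z k) (A + P * j) H : ℝ) ≤ κ * (H * V (z k))) with hGd
  have hGcard : c * N ≤ G.card := by
    have h1 : ((Icc 1 N).filter (fun j => ¬ (cnt (z k) (A + P * j) H : ℝ) ≤ κ * (H * V (z k)))).card *
        (κ * (H * V (z k))) ≤ ∑ j ∈ Icc 1 N, (cnt (z k) (A + P * j) H : ℝ) := by
      rw [← nsmul_eq_mul, ← sum_const]
      refine (sum_le_sum fun j hj => ?_).trans (sum_le_sum_of_subset_of_nonneg (filter_subset _ _)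
        fun j _ _ => Nat.cast_nonneg _)
      rw [mem_filter] at hj
      exact (not_le.1 hj.2).le
    have h2 : (G.card : ℝ) + ((Icc 1 N).filter (fun j => ¬ (cnt (z k) (A + P * j) H : ℝ) ≤
        κ * (H * V (z k)))).card = N := by
      have h3 := card_filter_add_card_filter_not (s := Icc 1 N)
        (fun j => (cnt (z k) (A + P * j) H : ℝ) ≤ κ * (H * V (z k)))
      rw [Nat.card_Icc, Nat.add_sub_cancel] at h3
      exact_mod_cast h3
    have h3 := h1.trans hsum
    have h4 : ((((Icc 1 N).filter (fun j => ¬ (cnt (z k) (A + P * j) H : ℝ) ≤ κ * (H * V (z k)))).card : ℝ) * κ) *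
        (H * V (z k)) ≤ (κ₀ * (1 + 2 * ε) * N) * (H * V (z k)) := by linarith
    have h5 := le_of_mul_le_mul_right h4 (by positivity)
    have h6 : ((((Icc 1 N).filter (fun j => ¬ (cnt (z k) (A + P * j) H : ℝ) ≤ κ * (H * V (z k)))).card : ℝ)) ≤
        κ₀ * (1 + 2 * ε) / κ * N := by
      rw [div_mul_eq_mul_div, le_div_iff₀ hκ0]
      exact h5
    rw [hc]
    linarith
  -- pigeonhole
  obtain ⟨r, hr, hrc⟩ : ∃ r ∈ range H, G.card ≤ H * (G.filter (fun j => j % H = r)).card := by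
    by_contra hcon
    push Not at hcon
    have h1 : G.card = ∑ r ∈ range H, (G.filter (fun j => j % H = r)).card :=
      card_eq_sum_card_fiberwise (fun j _ => by simpa using Nat.mod_lt j hH0)
    have h2 : ∑ r ∈ range H, H * (G.filter (fun j => j % H = r)).card < ∑ _r ∈ range H, G.card :=
      sum_lt_sum_of_nonempty ⟨0, mem_range.2 hH0⟩ hcon
    rw [← mul_sum, ← h1, sum_const, card_range, smul_eq_mul] at h2
    exact lt_irrefl _ h2
  set T0 := G.filter (fun j => j % H = r) with hT0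
  have hinj : Function.Injective (fun j : ℕ => A + P * j) := by
    intro i j hij
    have : P * i = P * j := by simpa using hij
    exact Nat.eq_of_mul_eq_mul_left hP0 this
  refine ⟨T0.image (fun j => A + P * j), ?_, ?_, ?_, ?_⟩
  · rw [card_image_of_injective _ hinj]
    refine hs3.trans ?_
    rw [div_le_iff₀ (by positivity)]
    have h1 : (G.card : ℝ) ≤ H * T0.card := by exact_mod_cast hrc
    calc c * ((2 : ℝ) ^ ((k : ℝ) - 1 - η / 4 * k) - 1) ≤ c * N := by gcongr
      _ ≤ G.card := hGcard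
      _ ≤ H * T0.card := h1
      _ ≤ ((lam + 1) * ((k : ℝ) + 1) ^ 2) * T0.card := by gcongr
      _ = T0.card * ((lam + 1) * ((k : ℝ) + 1) ^ 2) := mul_comm _ _
  · intro a ha
    rw [mem_image] at ha
    obtain ⟨j, hj, rfl⟩ := ha
    rw [hT0, mem_filter, hGd, mem_filter, mem_Icc] at hj
    have h1 : P * j ≤ P * N := Nat.mul_le_mul_left _ hj.1.1.2
    constructor
    · rw [hA]
      omega
    · rw [hA]
      omega
  · intro a ha b hb hab
    rw [mem_image] at ha hb
    obtain ⟨i, hi, rfl⟩ := ha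
    obtain ⟨j, hj, rfl⟩ := hb
    rw [hT0, mem_filter] at hi hj
    have hij : i < j := by
      by_contra hcon
      push Not at hcon
      have := Nat.mul_le_mul_left P hcon
      omega
    have h1 : i + H ≤ j := by
      have h2 : i ≡ j [MOD H] := by
        unfold Nat.ModEq
        rw [hi.2, hj.2]
      have h3 : H ∣ j - i := (Nat.modEq_iff_dvd' hij.le).1 h2
      have h4 := Nat.le_of_dvd (by omega) h3
      omega
    have h2 : P * (i + H) ≤ P * j := Nat.mul_le_mul_left _ h1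
    have h3 : H ≤ P * H := Nat.le_mul_of_pos_left H hP0
    rw [mul_add] at h2
    omega
  · intro a ha
    rw [mem_image] at ha
    obtain ⟨j, hj, rfl⟩ := ha
    rw [hT0, mem_filter, hGd, mem_filter] at hj
    exact hj.1.2



/-- the lower bound engine, pointwise form (adapted from helper150's `lower_engine`) -/
theorem engine_ev {Ω : Type*} [MeasurableSpace Ω] {μ : Measure Ω} [IsProbabilityMeasure μ]
    {z : ℕ → ℕ} (hz : Tendsto (fun k : ℕ => Real.log (z k) / k) atTop (𝓝 0)) {A : ℕ → Set Ω}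
    (h : IsSievedModel μ z A) {lam κ : ℝ} (hlam : 0 < lam)
    (hκ : 0 < κ) (hκl : κ * lam < 1) (hG : ∀ η : ℝ, 0 < η → ∀ᶠ k in atTop, Good z lam κ η k) :
    ∀ᵐ ω ∂μ, ∀ᶠ k : ℕ in atTop, ∃ a : ℕ, 2 ^ k ≤ a ∧ a + HH lam k < 2 ^ (k + 1) ∧
      ∀ n ∈ Ioc a (a + HH lam k), ω ∉ A n := by
  classical
  have hl2 : 0 < Real.log 2 := Real.log_pos (by norm_num)
  obtain ⟨η, hη0, hη⟩ : ∃ η : ℝ, 0 < η ∧ η + κ * lam * (1 + η) < 1 := by
    refine ⟨(1 - κ * lam) / 4, by linarith, ?_⟩
    have h0 : 0 < κ * lam := by positivity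
    nlinarith
  set c := 1 - η - κ * lam * (1 + η) with hc
  have hc0 : 0 < c := by linarith
  have hev := ev_growth hz lam κ η hlam hκ hη0
  -- the bad events
  set T : ℕ → Finset ℕ := fun k => if hk : Good z lam κ η k then hk.choose else ∅ with hT
  set F : ℕ → Set Ω := fun k => if Good z lam κ η k then
    ⋂ a ∈ T k, (Emp A (Ioc a (a + HH lam k)))ᶜ else ∅ with hF
  have hsum : Summable (fun k : ℕ => Real.exp (-(c * Real.log 2 * k))) := by
    have h1 : (fun k : ℕ => Real.exp (-(c * Real.log 2 * k))) = fun k : ℕ => (Real.exp (-(c * Real.log 2))) ^ k := by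
      ext k
      rw [← Real.exp_nat_mul]
      congr 1
      ring
    rw [h1]
    exact summable_geometric_of_lt_one (Real.exp_pos _).le (by rw [Real.exp_lt_one_iff]; nlinarith)
  have hb : ∀ᶠ k in atTop, μ.real (F k) ≤ Real.exp (-(c * Real.log 2 * k)) := by
    filter_upwards [hev] with k hk
    obtain ⟨hk0, hk1, hk2⟩ := hk
    by_cases hg : Good z lam κ η k
    · have hFk : F k = ⋂ a ∈ T k, (Emp A (Ioc a (a + HH lam k)))ᶜ := by rw [hF]; simp only [if_pos hg]
      have hTk : T k = hg.choose := by rw [hT]; simp only [dif_pos hg]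
      obtain ⟨g1, g2, g3, g4⟩ := hg.choose_spec
      rw [← hTk] at g1 g2 g3 g4
      have hk' : (0 : ℝ) < k := by exact_mod_cast hk0
      have hV := V_pos (z k)
      set ρ := 1 / (V (z k) * (k * Real.log 2)) with hρ
      have hρ0 : 0 ≤ ρ := by rw [hρ]; positivity
      -- each probability
      have hq : ∀ a ∈ T k, Real.exp (-(κ * lam * (1 + η) * (k * Real.log 2))) ≤
          μ.real (Emp A (Ioc a (a + HH lam k))) := by
        intro a ha
        refine le_trans ?_ (Emp_ge h hk0 (g2 a ha).1 (g2 a ha).2 hρ hk1)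
        apply Real.exp_le_exp.2
        rw [neg_le_neg_iff]
        calc (cnt (z k) a (HH lam k) : ℝ) * (ρ + 2 * ρ ^ 2)
            ≤ κ * (HH lam k * V (z k)) * (ρ + 2 * ρ ^ 2) := by
              have := g4 a ha
              gcongr
          _ = κ * HH lam k * (1 + 2 * ρ) * (V (z k) * ρ) := by ring
          _ = κ * HH lam k * (1 + 2 * ρ) / (k * Real.log 2) := by
              rw [hρ]
              field_simp
          _ ≤ _ := hk2
      -- reindex the disjoint intervals
      set I : ℕ → Finset ℕ := fun a => if a ∈ T k then Ioc a (a + HH lam k) else ∅ with hI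
      have hdis : Pairwise (fun i j => Disjoint (I i) (I j)) := by
        intro i j hij
        rw [hI]
        dsimp only
        split_ifs with hi hj hj
        · rw [Finset.disjoint_left]
          intro x hx hx'
          rw [mem_Ioc] at hx hx'
          rcases lt_or_gt_of_ne hij with h5 | h5
          · have := g3 i hi j hj h5
            omega
          · have := g3 j hj i hi h5
            omega
        · exact disjoint_empty_right _
        · exact disjoint_empty_left _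
        · exact disjoint_empty_left _
      have hIe : ∀ a ∈ T k, I a = Ioc a (a + HH lam k) := fun a ha => by rw [hI]; simp only [if_pos ha]
      have hn := none_le h V_nonneg I hdis (T k) _ (fun a ha => by rw [hIe a ha]; exact hq a ha)
      have e : (⋂ a ∈ T k, (Emp A (I a))ᶜ) = ⋂ a ∈ T k, (Emp A (Ioc a (a + HH lam k)))ᶜ := by
        refine Set.iInter₂_congr fun a ha => ?_
        rw [hIe a ha]
      rw [e] at hn
      rw [hFk]
      refine hn.trans ?_
      apply Real.exp_le_exp.2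
      rw [neg_le_neg_iff]
      have e2 : (2 : ℝ) ^ ((1 - η) * k) = Real.exp ((1 - η) * k * Real.log 2) := by
        rw [Real.rpow_def_of_pos (by norm_num)]
        congr 1
        ring
      calc c * Real.log 2 * k ≤ Real.exp (c * Real.log 2 * k) := by
            have := Real.add_one_le_exp (c * Real.log 2 * k)
            linarith
        _ = Real.exp ((1 - η) * k * Real.log 2) * Real.exp (-(κ * lam * (1 + η) * (k * Real.log 2))) := by
            rw [← Real.exp_add]
            congr 1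
            rw [hc]
            ring
        _ ≤ (T k).card * Real.exp (-(κ * lam * (1 + η) * (k * Real.log 2))) := by
            rw [← e2]
            gcongr
    · have hFk : F k = ∅ := by rw [hF]; simp only [if_neg hg]
      rw [hFk]
      simp [Real.exp_nonneg]
  filter_upwards [bc hsum hb] with ω hω
  refine ((hG η hη0).and hω).mono fun k hk => ?_
  obtain ⟨hg, hnF⟩ := hk
  have hFk : F k = ⋂ a ∈ T k, (Emp A (Ioc a (a + HH lam k)))ᶜ := by rw [hF]; simp only [if_pos hg]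
  have hTk : T k = hg.choose := by rw [hT]; simp only [dif_pos hg]
  obtain ⟨g1, g2, g3, g4⟩ := hg.choose_spec
  rw [← hTk] at g1 g2 g3 g4
  rw [hFk] at hnF
  simp only [Set.mem_iInter, Set.mem_compl_iff, not_forall, not_not] at hnF
  obtain ⟨a, ha, hae⟩ := hnF
  exact ⟨a, (g2 a ha).1, (g2 a ha).2, fun n hn => mem_Emp.1 hae n hn⟩

/-- every late dyadic block contains an element of the random set -/
theorem blocks_ev {Ω : Type*} [MeasurableSpace Ω] {μ : Measure Ω} [IsProbabilityMeasure μ]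
    {z : ℕ → ℕ} (hz : Tendsto (fun k : ℕ => Real.log (z k) / k) atTop (𝓝 0))
    {A : ℕ → Set Ω} (h : IsSievedModel μ z A) :
    ∀ᵐ ω ∂μ, ∀ᶠ k : ℕ in atTop, ∃ n : ℕ, 2 ^ k < n ∧ n < 2 ^ (k + 1) ∧ ω ∈ A n := by
  have hl2 : 0 < Real.log 2 := Real.log_pos (by norm_num)
  obtain ⟨K, x0, hK, hcl⟩ := cnt_low (1 / 4) (by norm_num)
  have hsum : Summable (fun k : ℕ => Real.exp (-((1 : ℝ) * k))) := by
    have h1 : (fun k : ℕ => Real.exp (-((1 : ℝ) * k))) = fun k : ℕ => (Real.exp (-1)) ^ k := by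
      ext k
      rw [← Real.exp_nat_mul]
      congr 1
      ring
    rw [h1]
    exact summable_geometric_of_lt_one (Real.exp_pos _).le (by rw [Real.exp_lt_one_iff]; norm_num)
  have hb : ∀ᶠ k : ℕ in atTop, μ.real (Emp A (Ioc (2 ^ k) (2 ^ k + (2 ^ k - 1)))) ≤
      Real.exp (-((1 : ℝ) * k)) := by
    filter_upwards [ev_good hz 1 (1 / 4) 1 1 one_pos (by norm_num) one_pos le_rfl one_pos K x0,
      Vlog_ev hz, poly_exp 8 1 one_pos, eventually_ge_atTop 2] with k hk hk2 hk3 hk4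
    obtain ⟨k1, k2, -⟩ := hk
    have hk0 : (2 : ℝ) ≤ k := by exact_mod_cast hk4
    rw [one_mul] at hk3
    have h2k : (2 : ℝ) ^ (k : ℝ) = ((2 ^ k : ℕ) : ℝ) := by
      push_cast
      rw [Real.rpow_natCast]
    have hcast : (((2 ^ k - 1 : ℕ)) : ℝ) = (2 : ℝ) ^ (k : ℝ) - 1 := by
      rw [h2k, Nat.cast_sub Nat.one_le_two_pow]
      push_cast
      rfl
    obtain ⟨m1, m2⟩ := k2 (2 ^ k - 1) (by
      rw [hcast]
      have e : (2 : ℝ) ^ (k : ℝ) = (2 : ℝ) ^ ((1 : ℝ) / 4 * k) * (2 : ℝ) ^ ((3 : ℝ) / 4 * k) := by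
        rw [← Real.rpow_add (by norm_num)]
        congr 1
        ring
      have h1 : 1 ≤ (2 : ℝ) ^ ((1 : ℝ) / 4 * k) := Real.one_le_rpow (by norm_num) (by positivity)
      have h2 : 2 ≤ (2 : ℝ) ^ ((3 : ℝ) / 4 * k) := by
        calc (2 : ℝ) = (2 : ℝ) ^ (1 : ℝ) := (Real.rpow_one 2).symm
          _ ≤ _ := Real.rpow_le_rpow_of_exponent_le (by norm_num) (by linarith)
      rw [e]
      nlinarith)
    have hc := hcl (z k) (2 ^ k) (2 ^ k - 1) m1 m2
    have hpow := Nat.two_pow_pos k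
    refine (Emp_le h (by omega) le_rfl (by rw [pow_succ']; omega) hk2).trans ?_
    apply Real.exp_le_exp.2
    rw [neg_le_neg_iff]
    have hV := V_pos (z k)
    rw [le_div_iff₀ (by positivity)]
    refine le_trans ?_ hc
    rw [hcast]
    have hlog2 : Real.log 2 ≤ 1 := by
      have := Real.log_two_lt_d9
      linarith
    have h3 : 1 * (k : ℝ) * (((k : ℝ) + 1) * Real.log 2) ≤ ((k : ℝ) + 1) ^ 2 := by
      have h4 : (k : ℝ) * (((k : ℝ) + 1) * Real.log 2) ≤ k * (((k : ℝ) + 1) * 1) := by gcongr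
      nlinarith
    have h5 : ((k : ℝ) + 1) ^ 2 ≤ (1 - 2 * (1 / 4)) * ((2 : ℝ) ^ (k : ℝ) - 1) := by nlinarith
    calc 1 * (k : ℝ) * (V (z k) * (((k : ℝ) + 1) * Real.log 2))
        = (1 * (k : ℝ) * (((k : ℝ) + 1) * Real.log 2)) * V (z k) := by ring
      _ ≤ ((1 - 2 * (1 / 4)) * ((2 : ℝ) ^ (k : ℝ) - 1)) * V (z k) := by
          apply mul_le_mul_of_nonneg_right (h3.trans h5) hV.le
      _ = _ := by ring
  filter_upwards [bc hsum hb] with ω hω
  refine hω.mono fun k hk => ?_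
  rw [mem_Emp] at hk
  push Not at hk
  obtain ⟨n, hn, hnA⟩ := hk
  rw [mem_Ioc] at hn
  refine ⟨n, hn.1, ?_, hnA⟩
  have := Nat.two_pow_pos k
  rw [pow_succ]
  omega

end Pool.Agent.W146.SH
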