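import Mathlib
import Pool.Agent.W146.SH.Ev
import Pool.Agent.W146.SH.Det
import Pool.Agent.W150.SM.Exist

/-! # Shanks' function in sieved random models (helper146) -/

set_option autoImplicit false

namespace Pool.Agent.W146.SH

open Finset MeasureTheory ProbabilityTheory Filter Topology
open Pool.Agent.H318R2.Cr Pool.Agent.W150.SM

variable {Ω : Type*} [MeasurableSpace Ω] {μ : Measure Ω} [IsProbabilityMeasure μ]

/-- hypothesis for the lower bound machine: intervals of length `HH lam k` with few candidates -/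
def Few (z : ℕ → ℕ) (lam κ₀ : ℝ) : Prop :=
  ∀ δ : ℝ, 0 < δ → ∀ᶠ k : ℕ in atTop, ∃ w a₀ : ℕ, w ≤ z k ∧ (w : ℝ) ≤ δ * k ∧
      (a₀ : ℝ) ≤ (2 : ℝ) ^ (δ * k) ∧ (cnt w a₀ (HH lam k) : ℝ) ≤ κ₀ * (HH lam k * V w)

theorem empty_ae {z : ℕ → ℕ} (hz : Tendsto (fun k : ℕ => Real.log (z k) / k) atTop (𝓝 0)) {A : ℕ → Set Ω}
    (h : IsSievedModel μ z A) {lam κ₀ : ℝ} (hlam : 0 < lam) (hκ₀ : 0 < κ₀) (hκl : κ₀ * lam < 1)
    (hG : Few z lam κ₀) :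
    ∀ᵐ ω ∂μ, ∀ᶠ k : ℕ in atTop, ∃ a : ℕ, 2 ^ k ≤ a ∧ a + HH lam k < 2 ^ (k + 1) ∧
      ∀ n ∈ Ioc a (a + HH lam k), ω ∉ A n := by
  obtain ⟨κ, h1, h2⟩ : ∃ κ : ℝ, κ₀ < κ ∧ κ * lam < 1 := by
    have h3 : κ₀ < 1 / lam := by rwa [lt_div_iff₀ hlam]
    obtain ⟨κ, h4, h5⟩ := exists_between h3
    exact ⟨κ, h4, by rwa [lt_div_iff₀ hlam] at h5⟩
  refine engine_ev hz h hlam (hκ₀.trans h1) h2 fun η hη => ?_
  have hs : ∀ η : ℝ, 0 < η → η ≤ 1 → ∀ᶠ k in atTop, Good z lam κ η k := fun η hη hη1 =>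
    ((good_ev1 hz hlam hκ₀ h1 η hη hη1).and (hG (η / 8) (by positivity))).mono fun k hk => hk.1 hk.2
  rcases le_total η 1 with h3 | h3
  · exact hs η hη h3
  · refine (hs 1 one_pos le_rfl).mono fun k hk => ?_
    obtain ⟨T, t1, t2, t3, t4⟩ := hk
    refine ⟨T, le_trans ?_ t1, t2, t3, t4⟩
    apply Real.rpow_le_rpow_of_exponent_le (by norm_num)
    have : (0 : ℝ) ≤ k := Nat.cast_nonneg k
    nlinarith

theorem runEnd_ae {z : ℕ → ℕ} (hz : Tendsto (fun k : ℕ => Real.log (z k) / k) atTop (𝓝 0)) {A : ℕ → Set Ω}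
    (h : IsSievedModel μ z A) {L : ℝ} (hL : 0 < L)
    (hG : ∀ lam : ℝ, 0 < lam → lam < L → ∃ κ₀ : ℝ, 0 < κ₀ ∧ κ₀ * lam < 1 ∧ Few z lam κ₀) :
    ∀ᵐ ω ∂μ, ∀ η : ℝ, 0 < η → ∀ᶠ g : ℕ in atTop, runEnd {n | ω ∈ A n} g ∈ runs {n | ω ∈ A n} g ∧
      Real.log (runEnd {n | ω ∈ A n} g) ≤ (1 / √L + η) * √(g : ℝ) := by
  set s : ℕ → ℝ := fun n => L * (1 - 1 / ((n : ℝ) + 2)) with hs
  have h1 : ∀ n, 0 < s n ∧ s n < L := by
    intro n
    have h2 : (0 : ℝ) < (n : ℝ) + 2 := by positivity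
    have h3 : 1 / ((n : ℝ) + 2) < 1 := by
      rw [div_lt_one h2]
      have : (0 : ℝ) ≤ n := Nat.cast_nonneg n
      linarith
    have h4 : 0 < 1 / ((n : ℝ) + 2) := by positivity
    constructor
    · exact mul_pos hL (by linarith)
    · rw [hs]
      dsimp only
      nlinarith
  have h3 : Tendsto s atTop (𝓝 L) := by
    have h4 : Tendsto (fun n : ℕ => 1 / ((n : ℝ) + 2)) atTop (𝓝 0) := by
      have h5 := tendsto_one_div_atTop_nhds_zero_nat (𝕜 := ℝ)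
      have h6 := h5.comp (tendsto_add_atTop_nat 2)
      refine h6.congr fun n => ?_
      simp
    have h7 : Tendsto (fun n : ℕ => L * (1 - 1 / ((n : ℝ) + 2))) atTop (𝓝 (L * (1 - 0))) :=
      (tendsto_const_nhds.sub h4).const_mul L
    rw [sub_zero, mul_one] at h7
    exact h7
  have h4 : Tendsto (fun n => 1 / √(s n)) atTop (𝓝 (1 / √L)) :=
    tendsto_const_nhds.div ((Real.continuous_sqrt.tendsto L).comp h3) (by positivity)
  have h5 : ∀ᵐ ω ∂μ, ∀ n, ∀ᶠ k : ℕ in atTop, ∃ a : ℕ, 2 ^ k ≤ a ∧ a + HH (s n) k < 2 ^ (k + 1) ∧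
      ∀ m ∈ Ioc a (a + HH (s n) k), ω ∉ A m := by
    rw [ae_all_iff]
    intro n
    obtain ⟨κ₀, c1, c2, c3⟩ := hG (s n) (h1 n).1 (h1 n).2
    exact empty_ae hz h (h1 n).1 c1 c2 c3
  filter_upwards [h5, blocks_ev hz h] with ω hω1 hω2 η hη
  obtain ⟨n, hn⟩ := (h4.eventually (gt_mem_nhds (show 1 / √L < 1 / √L + η / 2 by linarith))).exists
  have h6 := upper_det (S := {n | ω ∈ A n}) (h1 n).1 (hω1 n) hω2
  have h7 : ∀ᶠ g : ℕ in atTop, 2 * Real.log 2 * (2 / η) ≤ √(g : ℝ) :=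
    (Real.tendsto_sqrt_atTop.comp tendsto_natCast_atTop_atTop).eventually_ge_atTop _
  filter_upwards [h6, h7] with g hg1 hg2
  refine ⟨hg1.1, hg1.2.trans ?_⟩
  have h8 : √(g : ℝ) / √(s n) ≤ (1 / √L + η / 2) * √(g : ℝ) := by
    rw [div_eq_mul_one_div, mul_comm]
    gcongr
  have h9 : 2 * Real.log 2 ≤ η / 2 * √(g : ℝ) := by
    have h10 : 2 * Real.log 2 * (2 / η) * (η / 2) ≤ √(g : ℝ) * (η / 2) := by gcongr
    have h11 : 2 * Real.log 2 * (2 / η) * (η / 2) = 2 * Real.log 2 := by field_simp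
    linarith
  linarith

/-- every level -/
theorem few_one (z : ℕ → ℕ) (lam : ℝ) : Few z lam 1 := by
  classical
  intro δ hδ
  filter_upwards with k
  refine ⟨0, 0, Nat.zero_le _, by push_cast; positivity, by push_cast; positivity, ?_⟩
  rw [V_zero, one_mul, mul_one]
  unfold cnt
  have : ((Ioc 0 (0 + HH lam k)).filter (Rgh 0)).card ≤ HH lam k := by
    refine (card_filter_le _ _).trans ?_
    rw [Nat.card_Ioc]
    omega
  exact_mod_cast this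

/-- levels `≥ (log n)^ε` -/
theorem few_delta (ε : ℝ) (hε : 0 < ε) : ∃ δ₀ : ℝ, 0 < δ₀ ∧ δ₀ < 1 ∧ ∀ z : ℕ → ℕ,
    (∀ᶠ k : ℕ in atTop, (k : ℝ) ^ ε ≤ z k) → ∀ lam : ℝ, 0 < lam → Few z lam (1 - δ₀) := by
  classical
  set ε' := min ε (1 / 2) with hε'
  have hε'0 : 0 < ε' := lt_min hε (by norm_num)
  have hε'1 : ε' ≤ ε := min_le_left _ _
  have hε'2 : ε' ≤ 1 / 2 := min_le_right _ _
  obtain ⟨δ₀, hδ₀, hδ₀1, K, z₀, hK, hlow⟩ := lowInt (4 / ε')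
  refine ⟨δ₀, hδ₀, hδ₀1, fun z hfr lam hlam => ?_⟩
  intro δ hδ
  -- eventual facts
  have e1 : ∀ᶠ k : ℕ in atTop, (z₀ : ℝ) + 2 ≤ (k : ℝ) ^ ε' := by
    have h1 : Tendsto (fun k : ℕ => (k : ℝ) ^ ε') atTop atTop :=
      (tendsto_rpow_atTop hε'0).comp tendsto_natCast_atTop_atTop
    exact h1.eventually_ge_atTop _
  have hkk : ∀ M : ℝ, ∀ᶠ k : ℕ in atTop, M ≤ (k : ℝ) := fun M =>
    tendsto_natCast_atTop_atTop.eventually_ge_atTop M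
  refine (hfr.and ((((e1.and (hkk (1 / δ ^ 2))).and (hkk 1)).and (pow_ev K δ hδ)).and
    ((hkk ((lam + 1) * 4 * (2 : ℝ) ^ (4 / ε')))))).mono ?_
  rintro k ⟨hkz, ⟨⟨⟨k1, k2⟩, k3⟩, k4⟩, k5⟩
  have hk0 : (0 : ℝ) < k := by linarith
  set X : ℝ := (k : ℝ) ^ ε' with hX
  set w : ℕ := ⌊X⌋₊ with hw
  have hX0 : 0 ≤ X := by positivity
  have hwX : (w : ℝ) ≤ X := Nat.floor_le hX0
  have hwX2 : X / 2 ≤ w := by
    have h1 : X < w + 1 := Nat.lt_floor_add_one X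
    have h2 : (0 : ℝ) ≤ z₀ := Nat.cast_nonneg z₀
    linarith
  have hXz : X ≤ z k := (Real.rpow_le_rpow_of_exponent_le k3 hε'1).trans hkz
  have hwz : w ≤ z k := by
    have : (w : ℝ) ≤ z k := hwX.trans hXz
    exact_mod_cast this
  have hz₀w : z₀ ≤ w := by
    apply Nat.le_floor
    linarith
  have hXsq : X ≤ √(k : ℝ) := by
    rw [Real.sqrt_eq_rpow]
    exact Real.rpow_le_rpow_of_exponent_le k3 hε'2
  have hsqk : √(k : ℝ) ≤ δ * k := by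
    have h1 : √(k : ℝ) * √(k : ℝ) = k := Real.mul_self_sqrt hk0.le
    have h2 : 1 / δ ≤ √(k : ℝ) := by
      apply Real.le_sqrt_of_sq_le
      rw [one_div_pow]
      exact k2
    have h3 : 1 ≤ δ * √(k : ℝ) := by
      rw [div_le_iff₀ hδ] at h2
      linarith
    have h4 : 0 ≤ √(k : ℝ) := Real.sqrt_nonneg _
    calc √(k : ℝ) = 1 * √(k : ℝ) := (one_mul _).symm
      _ ≤ δ * √(k : ℝ) * √(k : ℝ) := by gcongr
      _ = δ * k := by rw [mul_assoc, h1]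
  have hXk : X ≤ k := by
    calc X ≤ (k : ℝ) ^ (1 : ℝ) := Real.rpow_le_rpow_of_exponent_le k3 (by linarith)
      _ = k := Real.rpow_one _
  have hHw : (HH lam k : ℝ) ≤ (w : ℝ) ^ (4 / ε') := by
    refine (HH_le lam hlam k).trans ?_
    have h1 : (X / 2) ^ (4 / ε') ≤ (w : ℝ) ^ (4 / ε') :=
      Real.rpow_le_rpow (by positivity) hwX2 (by positivity)
    refine le_trans ?_ h1
    rw [Real.div_rpow hX0 (by norm_num), hX, ← Real.rpow_mul hk0.le,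
      show ε' * (4 / ε') = (4 : ℕ) by push_cast; field_simp, Real.rpow_natCast, le_div_iff₀ (by positivity)]
    have h2 : ((k : ℝ) + 1) ^ 2 ≤ 4 * (k : ℝ) ^ 2 := by nlinarith
    calc (lam + 1) * ((k : ℝ) + 1) ^ 2 * (2 : ℝ) ^ (4 / ε')
        ≤ (lam + 1) * (4 * (k : ℝ) ^ 2) * (2 : ℝ) ^ (4 / ε') := by gcongr
      _ = (k : ℝ) ^ 2 * ((lam + 1) * 4 * (2 : ℝ) ^ (4 / ε')) := by ring
      _ ≤ (k : ℝ) ^ 2 * k := by gcongr
      _ ≤ (k : ℝ) ^ 2 * (k : ℝ) ^ 2 := by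
          apply mul_le_mul_of_nonneg_left _ (by positivity)
          nlinarith
      _ = (k : ℝ) ^ 4 := by ring
  obtain ⟨a₀, ha₀, hc⟩ := hlow w hz₀w (HH lam k) (HH_pos lam hlam k) hHw
  refine ⟨w, a₀, hwz, hwX.trans (hXsq.trans hsqk), ?_, hc⟩
  refine ha₀.trans (le_trans ?_ k4)
  apply Real.rpow_le_rpow (Nat.cast_nonneg _) (hwX.trans hXk) hK

/-- levels `≥ (log n)^{1-o(1)}` -/
theorem few_gamma {z : ℕ → ℕ} (hfr : ∀ ε : ℝ, 0 < ε → ∀ᶠ k : ℕ in atTop, (k : ℝ) ^ (1 - ε) ≤ z k)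
    {lam : ℝ} (hlam : 0 < lam) (hlam1 : lam < 2 * Real.exp (-Real.eulerMascheroniConstant)) :
    ∃ κ₀ : ℝ, 0 < κ₀ ∧ κ₀ * lam < 1 ∧ Few z lam κ₀ := by
  set γ' := Real.exp Real.eulerMascheroniConstant with hγ'
  have hγ0 : 0 < γ' := Real.exp_pos _
  have h1 : γ' / 2 * lam < 1 := by
    rw [Real.exp_neg, ← hγ'] at hlam1
    calc γ' / 2 * lam < γ' / 2 * (2 * γ'⁻¹) := by gcongr
      _ = 1 := by field_simp
  obtain ⟨θ, hθ, hθ1, hθ2⟩ : ∃ θ : ℝ, 0 < θ ∧ θ ≤ 1 ∧ γ' / 2 * (1 + θ) * lam < 1 := by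
    have h0 : 0 < γ' / 2 * lam := by positivity
    refine ⟨min 1 ((1 - γ' / 2 * lam) / (2 * (γ' / 2 * lam))), lt_min one_pos (div_pos (by linarith) (by positivity)),
      min_le_left _ _, ?_⟩
    have h2 : min 1 ((1 - γ' / 2 * lam) / (2 * (γ' / 2 * lam))) ≤ (1 - γ' / 2 * lam) / (2 * (γ' / 2 * lam)) :=
      min_le_right _ _
    set θ := min 1 ((1 - γ' / 2 * lam) / (2 * (γ' / 2 * lam)))
    rw [le_div_iff₀ (by positivity)] at h2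
    nlinarith
  obtain ⟨ε, hε, hε1, hev⟩ := rough_few θ hθ hθ1 lam hlam
  refine ⟨γ' / 2 * (1 + θ), by positivity, hθ2, ?_⟩
  intro δ hδ
  have hkk : ∀ M : ℝ, ∀ᶠ k : ℕ in atTop, M ≤ (k : ℝ) := fun M =>
    tendsto_natCast_atTop_atTop.eventually_ge_atTop M
  have hδk : ∀ᶠ k : ℕ in atTop, 1 / δ ≤ (k : ℝ) ^ ε := by
    have h1 : Tendsto (fun k : ℕ => (k : ℝ) ^ ε) atTop atTop :=
      (tendsto_rpow_atTop hε).comp tendsto_natCast_atTop_atTop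
    exact h1.eventually_ge_atTop _
  refine ((hfr ε hε).and ((hev.and hδk).and (hkk 1))).mono ?_
  rintro k ⟨h2, ⟨h3, h4⟩, h5⟩
  have hk0 : (0 : ℝ) < k := by linarith
  have hX0 : 0 ≤ (k : ℝ) ^ (1 - ε) := by positivity
  refine ⟨⌊(k : ℝ) ^ (1 - ε)⌋₊, 0, ?_, ?_, by push_cast; positivity, h3⟩
  · have : ((⌊(k : ℝ) ^ (1 - ε)⌋₊ : ℕ) : ℝ) ≤ z k := (Nat.floor_le hX0).trans h2
    exact_mod_cast this
  · refine (Nat.floor_le hX0).trans ?_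
    have h6 : (k : ℝ) ^ (1 - ε) * (k : ℝ) ^ ε = k := by
      rw [← Real.rpow_add hk0, sub_add_cancel, Real.rpow_one]
    rw [div_le_iff₀ hδ] at h4
    calc (k : ℝ) ^ (1 - ε) = (k : ℝ) ^ (1 - ε) * 1 := (mul_one _).symm
      _ ≤ (k : ℝ) ^ (1 - ε) * ((k : ℝ) ^ ε * δ) := by gcongr
      _ = δ * ((k : ℝ) ^ (1 - ε) * (k : ℝ) ^ ε) := by ring
      _ = δ * k := by rw [h6]

end Pool.Agent.W146.SH
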